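import Pool.Agent.H.MP_7325c9_al.Aut

set_option autoImplicit false

namespace Pool.Agent.Results.MP_7325c9_al.Regular

open Pool.Agent.H.MP_7325c9_al

theorem result (V : Type) [Fintype V] (Γ : SimpleGraph V) (σ : Equiv.Perm V)
    (hσ : ∀ u v, Γ.Adj (σ u) (σ v) ↔ Γ.Adj u v) :
    ∃ L : Language (Option V × Bool), L.IsRegular ∧ ∀ w : List (Option V × Bool),
      w ∈ L ↔ ∀ w' : List (Option V × Bool),
        IsConj (eval Γ σ w) (eval Γ σ w') → w.length ≤ w'.length :=
  regular hσ

end Pool.Agent.Results.MP_7325c9_al.Regular
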